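import Pool.Agent.H242.LD.Stm

/-!
# LD-SLICE (project LD of helper242): slices of positive content give one more dimension
-/

set_option autoImplicit false

namespace Pool.Agent.H412.LD

open Set MeasureTheory
open Pool.Agent.H242.LD Pool.Agent.H242.TM
open scoped ENNReal NNReal

/-- the majorant of the slices of a set -/
noncomputable def maj (T : Set (ℝ × ℝ)) (s : ℝ) (q : ℝ × ℝ) : ℝ → ℝ≥0∞ :=
  (Metric.closedEBall q.2 (Metric.ediam T)).indicator fun _ => Metric.ediam T ^ s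

theorem maj_meas (T : Set (ℝ × ℝ)) (s : ℝ) (q : ℝ × ℝ) : Measurable (maj T s q) :=
  measurable_const.indicator Metric.isClosed_closedEBall.measurableSet

theorem slice_le (T : Set (ℝ × ℝ)) (s : ℝ) (hs : 0 < s) (q : ℝ × ℝ) (hq : T.Nonempty → q ∈ T) (y : ℝ) :
    Metric.ediam {x : ℝ | (x, y) ∈ T} ^ s ≤ maj T s q y := by
  by_cases h : ({x : ℝ | (x, y) ∈ T}).Nonempty
  · obtain ⟨x, hx⟩ := h
    have hx' : (x, y) ∈ T := hx
    have hqT := hq ⟨_, hx'⟩
    have h1 : y ∈ Metric.closedEBall q.2 (Metric.ediam T) := by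
      rw [Metric.mem_closedEBall]
      exact (le_max_right _ _).trans (Metric.edist_le_ediam_of_mem hx' hqT)
    unfold maj
    rw [indicator_of_mem h1]
    refine ENNReal.rpow_le_rpow ?_ hs.le
    refine Metric.ediam_le fun u hu v hv => ?_
    have hu' : (u, y) ∈ T := hu
    have hv' : (v, y) ∈ T := hv
    exact (le_max_left _ _).trans (Metric.edist_le_ediam_of_mem hu' hv')
  · rw [not_nonempty_iff_eq_empty] at h
    rw [h, Metric.ediam_empty, ENNReal.zero_rpow_of_pos hs]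
    exact zero_le

theorem maj_int (T : Set (ℝ × ℝ)) (s : ℝ) (hs : 0 < s) (q : ℝ × ℝ) :
    ∫⁻ y, maj T s q y ≤ 2 * Metric.ediam T ^ (1 + s) := by
  unfold maj
  rw [lintegral_indicator Metric.isClosed_closedEBall.measurableSet, setLIntegral_const,
    Real.volume_closedEBall, ENNReal.rpow_add_of_nonneg _ _ zero_le_one hs.le, ENNReal.rpow_one]
  refine le_of_eq ?_
  ring

theorem ld_SLICE : S_SLICE := by
  intro E y₀ δ s c hδ hs hc hyp
  by_contra hlt
  rw [not_le] at hlt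
  have h0 : Measure.hausdorffMeasure (((1 + s).toNNReal : ℝ≥0) : ℝ) E = 0 :=
    hausdorffMeasure_of_dimH_lt hlt
  rw [Real.coe_toNNReal _ (by linarith), Measure.hausdorffMeasure_apply] at h0
  have h1 : (⨅ (t : ℕ → Set (ℝ × ℝ)) (_ : E ⊆ ⋃ n, t n) (_ : ∀ n, Metric.ediam (t n) ≤ 1),
      ∑' n, ⨆ _ : (t n).Nonempty, Metric.ediam (t n) ^ (1 + s)) < ENNReal.ofReal (c * δ) := by
    refine lt_of_le_of_lt ?_ (ENNReal.ofReal_pos.2 (mul_pos hc hδ))
    rw [← h0]
    exact le_iSup₂_of_le 1 one_pos le_rfl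
  simp only [iInf_lt_iff] at h1
  obtain ⟨T, hcov, -, hsum⟩ := h1
  classical
  -- points of the sets
  let q : ℕ → ℝ × ℝ := fun i => if h : (T i).Nonempty then h.some else (0, 0)
  have hq : ∀ i, (T i).Nonempty → q i ∈ T i := by
    intro i h
    simp only [q, dif_pos h]
    exact h.some_mem
  have hle : ∀ y ∈ Icc (y₀ - δ) (y₀ + δ), ENNReal.ofReal c ≤ ∑' i, maj (T i) s (q i) y := by
    intro y hy
    refine (hyp y hy (fun i => {x : ℝ | (x, y) ∈ T i}) ?_).trans
      (ENNReal.tsum_le_tsum fun i => slice_le (T i) s hs (q i) (hq i) y)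
    intro x hx
    obtain ⟨i, hi⟩ := mem_iUnion.1 (hcov hx)
    exact mem_iUnion.2 ⟨i, hi⟩
  have hint : ∀ i, ∫⁻ y, maj (T i) s (q i) y ≤ 2 * ⨆ _ : (T i).Nonempty, Metric.ediam (T i) ^ (1 + s) := by
    intro i
    refine (maj_int (T i) s hs (q i)).trans ?_
    by_cases h : (T i).Nonempty
    · rw [iSup_pos h]
    · rw [not_nonempty_iff_eq_empty] at h
      rw [h, Metric.ediam_empty, ENNReal.zero_rpow_of_pos (by linarith), mul_zero]
      exact zero_le
  have hJ : ENNReal.ofReal c * ENNReal.ofReal (2 * δ) ≤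
      2 * ∑' i, ⨆ _ : (T i).Nonempty, Metric.ediam (T i) ^ (1 + s) := by
    calc ENNReal.ofReal c * ENNReal.ofReal (2 * δ)
        = ∫⁻ _ in Icc (y₀ - δ) (y₀ + δ), ENNReal.ofReal c := by
          rw [setLIntegral_const, Real.volume_Icc]
          congr 2
          ring
      _ ≤ ∫⁻ y in Icc (y₀ - δ) (y₀ + δ), ∑' i, maj (T i) s (q i) y :=
          setLIntegral_mono' measurableSet_Icc hle
      _ ≤ ∫⁻ y, ∑' i, maj (T i) s (q i) y := setLIntegral_le_lintegral _ _
      _ = ∑' i, ∫⁻ y, maj (T i) s (q i) y :=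
          lintegral_tsum fun i => (maj_meas _ _ _).aemeasurable
      _ ≤ ∑' i, 2 * ⨆ _ : (T i).Nonempty, Metric.ediam (T i) ^ (1 + s) :=
          ENNReal.tsum_le_tsum hint
      _ = 2 * ∑' i, ⨆ _ : (T i).Nonempty, Metric.ediam (T i) ^ (1 + s) := ENNReal.tsum_mul_left
  have h2 : 2 * ∑' i, ⨆ _ : (T i).Nonempty, Metric.ediam (T i) ^ (1 + s) <
      2 * ENNReal.ofReal (c * δ) :=
    (ENNReal.mul_lt_mul_iff_right two_ne_zero ENNReal.ofNat_ne_top).2 hsum
  have h3 : ENNReal.ofReal c * ENNReal.ofReal (2 * δ) = 2 * ENNReal.ofReal (c * δ) := by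
    rw [← ENNReal.ofReal_mul hc.le, show c * (2 * δ) = 2 * (c * δ) by ring,
      ENNReal.ofReal_mul (by norm_num), ENNReal.ofReal_ofNat]
  rw [h3] at hJ
  exact absurd (hJ.trans_lt h2) (lt_irrefl _)

end Pool.Agent.H412.LD
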